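import Pool.Agent.H27.Alpha2

namespace Pool.Agent.Results.MP_b87acb_an.LimInf
open Filter Topology Pool.Agent.H27.AlphaDef Pool.Agent.H27.Alpha2

theorem result : Tendsto (fun n : ℕ => alpha (Fin n → ℂ) / √n) atTop (𝓝 (1 / √2)) ∧
    limsup (fun n : ℕ => alpha (Fin n → ℂ) / √n) atTop = 1 / √2 := by
  suffices h : _ from ⟨h, h.limsup_eq⟩
  have a : Tendsto (fun n : ℕ => 1 / √(2 - (n : ℝ)⁻¹)) atTop (𝓝 (1 / √2)) := by
    have := (tendsto_const_nhds (x := (1 : ℝ))).div ((tendsto_inv_atTop_nhds_zero_nat (𝕜 := ℝ)).const_sub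
      2).sqrt (by simp)
    rwa [sub_zero] at this
  refine tendsto_of_tendsto_of_tendsto_of_le_of_le' tendsto_const_nhds a ?_ ?_ <;>
    filter_upwards [eventually_gt_atTop 0] with n hn <;>
    have n1 : (1 : ℝ) ≤ n := by exact_mod_cast hn
  · rw [le_div_iff₀ (by positivity)]
    refine le_trans (le_of_eq ?_) (ai hn).1
    rw [Real.sqrt_div' _ two_pos.le]; ring
  · rw [div_le_iff₀ (by positivity)]
    refine (ai hn).2.trans_eq ?_
    have e : 2 * (n : ℝ) - 1 = n * (2 - (n : ℝ)⁻¹) := by field_simp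
    have s := Real.mul_self_sqrt (n.cast_nonneg (α := ℝ))
    have p : 0 < √(n : ℝ) := by positivity
    rw [e, Real.sqrt_mul (by positivity)]
    nth_rewrite 1 [← s]
    rw [mul_div_mul_left _ _ p.ne']; ring

end Pool.Agent.Results.MP_b87acb_an.LimInf
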