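import Pool.Agent.H27.Alpha2

namespace Pool.Agent.Results.MP_b87acb_an.LimTwo
open Filter Topology Pool.Agent.H27.AlphaDef Pool.Agent.H27.Alpha2

theorem result :
    Tendsto (fun n : ℕ => alpha (EuclideanSpace ℂ (Fin n)) / n) atTop (𝓝 (1 / 2)) ∧
    limsup (fun n : ℕ => alpha (EuclideanSpace ℂ (Fin n)) / n) atTop = 1 / 2 := by
  suffices h : _ from ⟨h, h.limsup_eq⟩
  have a : Tendsto (fun n : ℕ => (1 + (n : ℝ)⁻¹) / 2) atTop (𝓝 (1 / 2)) := by
    simpa using ((tendsto_inv_atTop_nhds_zero_nat (𝕜 := ℝ)).const_add 1).div_const 2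
  refine tendsto_of_tendsto_of_tendsto_of_le_of_le' tendsto_const_nhds a ?_ ?_ <;>
    filter_upwards [eventually_gt_atTop 0] with n hn <;>
    have n1 : (0 : ℝ) < n := by exact_mod_cast hn
  · rw [le_div_iff₀ n1]
    refine le_trans (Real.le_sqrt_of_sq_le ?_) ((a2 n).2 (n / 2) (Nat.div_le_self _ _))
    have b : (n : ℝ) ≤ 2 * (n / 2 : ℕ) + 1 := by exact_mod_cast (by omega)
    have c : 2 * ((n / 2 : ℕ) : ℝ) ≤ n := by exact_mod_cast (by omega)
    nlinarith
  · rw [div_le_iff₀ n1]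
    refine (a2 n).1.trans_eq ?_
    field_simp

end Pool.Agent.Results.MP_b87acb_an.LimTwo
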